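import Mathlib
import Pool.Agent.K4H72.MZ.Der
import Pool.Agent.K4H72.TS.Loc
import Pool.Agent.K4H72.TS.Fz

/-!
# MP_56b8f5_nt : moments of zeta against Carleson measures, by moments over thick sets

Let `L = log T`. For every integer `k ≥ 1` and every window `[U, V]` in `[0, T]`, the `k`-th moment
of `|ζ|` over any set `E` of heights which contains a fixed proportion of each interval of length
`A / L` controls the integral, against every measure `ν` on `|Re s - 1/2| ≤ A / L` that satisfies a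
Carleson condition at the scale `1 / L`, of the `k`-th power of the largest value of a derivative of
`ζ` in discs of radius `A / L`; the integrand, and the masses allowed for `ν`, may carry an arbitrary
exponential weight in the number of zeros of `ζ` in these discs.

Special cases: `ν` the length on the critical line (then the full moment is bounded by the moment over
`E`, and clusters of zeros contribute exponentially little), and `ν` the counting measure of the zeros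
(with `K = L`), which gives `∑ |ζ'(ρ)|^k ≤ C L^(k+1) (∫_E |ζ(1/2+iu)|^k du + 1)`.
-/

set_option autoImplicit false

open MeasureTheory Filter Topology Set Complex
open scoped ENNReal

namespace Pool.Agent.Results.MP_56b8f5_nt.LargeValuesAndZeros

open Pool.Agent.K4H72.MZ Pool.Agent.K4H72.TS

/-- The number of zeros of `ζ` in the closed disc with centre `s` and radius `r`, counted with
multiplicity (`analyticOrderNatAt` is the order of vanishing). -/
noncomputable def zeroCount (s : ℂ) (r : ℝ) : ℕ :=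
  ∑ᶠ ρ ∈ {ρ : ℂ | ‖ρ - s‖ ≤ r ∧ riemannZeta ρ = 0}, analyticOrderNatAt riemannZeta ρ

/-- The largest value of the absolute value of the `j`-th derivative of `ζ` in the closed disc with
centre `s` and radius `r`. -/
noncomputable def maxDeriv (j : ℕ) (s : ℂ) (r : ℝ) : ℝ :=
  sSup ((fun z => ‖iteratedDeriv j riemannZeta z‖) '' Metric.closedBall s r)

/-- The moment `∫_{E ∩ [a, b]} |ζ(1/2 + iu)|^k du` over the set `E`. -/
noncomputable def momentOn (E : Set ℝ) (k : ℕ) (a b : ℝ) : ℝ :=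
  ∫ u in E ∩ Icc a b, ‖riemannZeta ⟨1 / 2, u⟩‖ ^ k

/-- The rectangle `|Re s - 1/2| ≤ r`, `a ≤ Im s ≤ b`. -/
def rect (r a b : ℝ) : Set ℂ := {s | |s.re - 1 / 2| ≤ r ∧ a ≤ s.im ∧ s.im ≤ b}

lemma zeroCount_fin {s : ℂ} {r : ℝ} (h : {z : ℂ | ‖z - s‖ ≤ r ∧ riemannZeta z = 0}.Finite) :
    zeroCount s r = ∑ z ∈ h.toFinset, analyticOrderNatAt riemannZeta z := by
  unfold zeroCount
  exact finsum_mem_eq_finite_toFinset_sum _ h

lemma zeroCount_mono {s s' : ℂ} {r r' t : ℝ} (h : ∀ z : ℂ, ‖z - s‖ ≤ r → ‖z - s'‖ ≤ r')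
    (hs : ‖s - ⟨1 / 2, t⟩‖ + r ≤ 1 / 8) (hs' : ‖s' - ⟨1 / 2, t⟩‖ + r' ≤ 1 / 8) :
    zeroCount s r ≤ zeroCount s' r' := by
  rw [zeroCount_fin (ball_fin hs), zeroCount_fin (ball_fin hs')]
  refine Finset.sum_le_sum_of_subset fun z hz => ?_
  rw [Set.Finite.mem_toFinset] at hz ⊢
  exact ⟨h z hz.1, hz.2⟩

lemma maxDeriv_nonneg (j : ℕ) (s : ℂ) (r : ℝ) : 0 ≤ maxDeriv j s r := by
  unfold maxDeriv
  apply Real.sSup_nonneg
  rintro x ⟨z, -, rfl⟩
  exact norm_nonneg _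

lemma maxDeriv_bd {k j : ℕ} (hk : 1 ≤ k) {s : ℂ} {r c V : ℝ} (hr : 0 ≤ r) (hc : 0 < c)
    (h : ∀ w : ℂ, ‖w - s‖ ≤ r → c * ‖iteratedDeriv j riemannZeta w‖ ^ k ≤ V) :
    c * maxDeriv j s r ^ k ≤ V := by
  have hV : 0 ≤ V := by
    refine le_trans ?_ (h s (by rwa [sub_self, norm_zero]))
    positivity
  have hVc : 0 ≤ V / c := by positivity
  set m : ℝ := (V / c) ^ ((k : ℝ)⁻¹) with hm
  have hm0 : 0 ≤ m := Real.rpow_nonneg hVc _
  have hmk : m ^ k = V / c := Real.rpow_inv_natCast_pow hVc (by omega)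
  have h1 : maxDeriv j s r ≤ m := by
    unfold maxDeriv
    apply csSup_le
    · exact ⟨_, s, Metric.mem_closedBall_self hr, rfl⟩
    · rintro x ⟨z, hz, rfl⟩
      rw [mem_closedBall_iff_norm] at hz
      have h2 := h z hz
      rw [mul_comm, ← le_div_iff₀ hc, ← hmk] at h2
      exact (pow_le_pow_iff_left₀ (norm_nonneg _) hm0 (by omega)).1 h2
  have h3 : maxDeriv j s r ^ k ≤ V / c := by
    rw [← hmk]
    exact pow_le_pow_left₀ (maxDeriv_nonneg _ _ _) h1 _
  rw [mul_comm, ← le_div_iff₀ hc]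
  exact h3

lemma exp_cond {T t : ℝ} (hT : 1 ≤ T) (h0 : 0 ≤ t) (h1 : t ≤ T + 1) :
    |t| + 4 ≤ Real.exp (Real.log T + 2) := by
  rw [Real.exp_add, Real.exp_log (by linarith), abs_of_nonneg h0]
  have h2 : (6:ℝ) ≤ Real.exp 2 := by
    have h3 := Real.exp_one_gt_d9
    have h4 : Real.exp 2 = Real.exp 1 * Real.exp 1 := by
      rw [← Real.exp_add]; norm_num
    rw [h4]
    nlinarith
  nlinarith

/-- summation over short pieces -/
lemma pieces {ν : Measure ℂ} {F : ℂ → ℝ≥0∞} {P : ℝ → ℝ} {Ω : Set ℂ} {U V ℓ K : ℝ} (hℓ : 1 ≤ ℓ)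
    (hK : 0 ≤ K)
    (hΩ : ∀ s ∈ Ω, U ≤ s.im ∧ s.im ≤ V)
    (h : ∀ t ∈ Icc U (V + 1), ∫⁻ s in {s ∈ Ω | |s.im - t| ≤ 1 / ℓ}, F s ∂ν ≤ ENNReal.ofReal (K * P t / ℓ)) :
    ∫⁻ s in Ω, F s ∂ν ≤ ENNReal.ofReal K * ∫⁻ t in Icc U (V + 1), ENNReal.ofReal (P t) := by
  have hℓ0 : 0 < ℓ := by linarith
  have h1ℓ : 0 < 1 / ℓ := by positivity
  have h1ℓ1 : 1 / ℓ ≤ 1 := by rw [div_le_one hℓ0]; exact hℓ
  set J : ℕ → Set ℝ := fun i => Ico (U + i / ℓ) (U + (i + 1) / ℓ) with hJ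
  set S : ℕ → Set ℂ := fun i => {s ∈ Ω | s.im ∈ J i} with hS
  have hcov : Ω ⊆ ⋃ i, S i := by
    intro s hs
    obtain ⟨h1, -⟩ := hΩ s hs
    have h2 : 0 ≤ (s.im - U) * ℓ := mul_nonneg (by linarith) hℓ0.le
    rw [mem_iUnion]
    refine ⟨⌊(s.im - U) * ℓ⌋₊, hs, ?_, ?_⟩
    · have := Nat.floor_le h2
      have h3 : (⌊(s.im - U) * ℓ⌋₊ : ℝ) / ℓ ≤ s.im - U := by rw [div_le_iff₀ hℓ0]; exact this
      linarith
    · have := Nat.lt_floor_add_one ((s.im - U) * ℓ)
      have h3 : s.im - U < ((⌊(s.im - U) * ℓ⌋₊ : ℝ) + 1) / ℓ := by rw [lt_div_iff₀ hℓ0]; exact this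
      linarith
  have hdisj : Pairwise (Function.onFun Disjoint fun i => J i ∩ Icc U (V + 1)) := by
    intro i j hij
    rw [Function.onFun, Set.disjoint_left]
    rintro t ⟨⟨h1, h2⟩, -⟩ ⟨⟨h3, h4⟩, -⟩
    rcases lt_or_gt_of_ne hij with hlt | hlt
    · have : ((i : ℝ) + 1) / ℓ ≤ j / ℓ := by
        apply div_le_div_of_nonneg_right _ hℓ0.le
        exact_mod_cast hlt
      linarith
    · have : ((j : ℝ) + 1) / ℓ ≤ i / ℓ := by
        apply div_le_div_of_nonneg_right _ hℓ0.le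
        exact_mod_cast hlt
      linarith
  have hpiece : ∀ i, ∫⁻ s in S i, F s ∂ν ≤
      ENNReal.ofReal K * ∫⁻ t in J i ∩ Icc U (V + 1), ENNReal.ofReal (P t) := by
    intro i
    rcases (S i).eq_empty_or_nonempty with he | ⟨s0, hs0, hs1⟩
    · rw [he, Measure.restrict_empty, lintegral_zero_measure]
      exact bot_le
    · obtain ⟨h1, h2⟩ := hΩ s0 hs0
      have hlen : U + ((i : ℝ) + 1) / ℓ = U + i / ℓ + 1 / ℓ := by
        rw [add_div]; ring
      have hsub : J i ⊆ Icc U (V + 1) := by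
        intro t ht
        have h3 : (0:ℝ) ≤ i / ℓ := by positivity
        have h4 := hs1.1
        have h5 := ht.2
        rw [hlen] at h5
        exact ⟨by linarith [ht.1], by linarith⟩
      rw [inter_eq_left.2 hsub]
      have h6 : ∀ t ∈ J i, ∫⁻ s in S i, F s ∂ν ≤ ENNReal.ofReal (K * P t / ℓ) := by
        intro t ht
        refine le_trans (lintegral_mono_set fun s hs => ?_) (h t (hsub ht))
        refine ⟨hs.1, ?_⟩
        have h7 := hs.2.1
        have h8 := hs.2.2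
        have h9 := ht.1
        have h10 := ht.2
        rw [hlen] at h8 h10
        rw [abs_le]
        constructor <;> linarith
      have h11 : (∫⁻ s in S i, F s ∂ν) * ENNReal.ofReal (1 / ℓ) ≤
          ENNReal.ofReal (K / ℓ) * ∫⁻ t in J i, ENNReal.ofReal (P t) := by
        calc (∫⁻ s in S i, F s ∂ν) * ENNReal.ofReal (1 / ℓ) = ∫⁻ _t in J i, (∫⁻ s in S i, F s ∂ν) := by
              rw [setLIntegral_const, Real.volume_Ico]
              congr 2
              rw [hlen]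
              ring
          _ ≤ ∫⁻ t in J i, ENNReal.ofReal (K / ℓ) * ENNReal.ofReal (P t) := by
              refine setLIntegral_mono' measurableSet_Ico fun t ht => ?_
              rw [← ENNReal.ofReal_mul (by positivity)]
              refine (h6 t ht).trans (le_of_eq ?_)
              congr 1
              ring
          _ = _ := lintegral_const_mul' _ _ ENNReal.ofReal_ne_top
      calc ∫⁻ s in S i, F s ∂ν = ((∫⁻ s in S i, F s ∂ν) * ENNReal.ofReal (1 / ℓ)) * ENNReal.ofReal ℓ := by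
            rw [mul_assoc, ← ENNReal.ofReal_mul h1ℓ.le, one_div_mul_cancel hℓ0.ne', ENNReal.ofReal_one, mul_one]
        _ ≤ (ENNReal.ofReal (K / ℓ) * ∫⁻ t in J i, ENNReal.ofReal (P t)) * ENNReal.ofReal ℓ := by gcongr
        _ = ENNReal.ofReal K * ∫⁻ t in J i, ENNReal.ofReal (P t) := by
            rw [mul_right_comm, ← ENNReal.ofReal_mul (by positivity), div_mul_cancel₀ _ hℓ0.ne']
  calc ∫⁻ s in Ω, F s ∂ν ≤ ∫⁻ s in ⋃ i, S i, F s ∂ν := lintegral_mono_set hcov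
    _ ≤ ∑' i, ∫⁻ s in S i, F s ∂ν := lintegral_iUnion_le _ _
    _ ≤ ∑' i, ENNReal.ofReal K * ∫⁻ t in J i ∩ Icc U (V + 1), ENNReal.ofReal (P t) := ENNReal.tsum_le_tsum hpiece
    _ = ENNReal.ofReal K * ∫⁻ t in ⋃ i, (J i ∩ Icc U (V + 1)), ENNReal.ofReal (P t) := by
        rw [ENNReal.tsum_mul_left, lintegral_iUnion (fun i => measurableSet_Ico.inter measurableSet_Icc) hdisj]
    _ ≤ _ := by
        gcongr
        exact iUnion_subset fun i => inter_subset_right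

theorem result (k : ℕ) (hk : 1 ≤ k) (j : ℕ) (A ε B γ : ℝ) (hA : 0 < A) (hε : 0 < ε) (hB : 0 ≤ B)
    (hγ : 0 < γ) (hγ1 : γ ≤ 1) :
    ∃ C T₀ : ℝ, ∀ T : ℝ, T₀ ≤ T → ∀ U V : ℝ, 0 ≤ U → U ≤ V → V ≤ T → ∀ E : Set ℝ, MeasurableSet E →
      (∀ u : ℝ, ENNReal.ofReal (γ * (A / Real.log T)) ≤ volume (E ∩ Icc u (u + A / Real.log T))) →
      ∀ (ν : Measure ℂ) (K : ℝ), 0 ≤ K →
      (∀ t : ℝ, ν {s ∈ rect (A / Real.log T) U V | |s.im - t| ≤ 1 / Real.log T} ≤
        ENNReal.ofReal (K * Real.exp (B * zeroCount ⟨1 / 2, t⟩ ((2 * A + 1) / Real.log T)) / Real.log T)) →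
      ∫⁻ s in rect (A / Real.log T) U V, ENNReal.ofReal
          (Real.exp (B * zeroCount s (A / Real.log T)) * maxDeriv j s (A / Real.log T) ^ k) ∂ν ≤
        ENNReal.ofReal (C * K * Real.log T ^ (j * k) * (momentOn E k (U - T ^ ε) (V + T ^ ε) + 1)) := by
  obtain ⟨C0, C2, T1, N, M, hf, hM1, hC2, hloc⟩ := zeta_loc k hk (A := A) (γ := γ) (ε := ε) hA hγ hγ1 hε
  obtain ⟨C', ℓ0, hC', hℓ0, hpt⟩ := deriv_pt hf (k := k) (M := M + 1) hk hM1 (A := 2 * A + 1) (2 * B) (by linarith)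
  have hpi := Real.pi_pos
  set D : ℝ := (j.factorial : ℝ) ^ k * C' * (Real.pi * 4 ^ M) * C2 with hD
  have hD0 : 0 ≤ D := by positivity
  refine ⟨D, max T1 (Real.exp (max ℓ0 (8 * (3 * A + 2)))), fun T hT U V hU hUV hVT E hE hth ν K hK hν => ?_⟩
  have hTT1 : T1 ≤ T := (le_max_left _ _).trans hT
  have hTe := (le_max_right _ _).trans hT
  have hT0 : 0 < T := (Real.exp_pos _).trans_le hTe
  have hT1 : 1 ≤ T := (Real.one_le_exp (by linarith [le_max_left ℓ0 (8 * (3 * A + 2))])).trans hTe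
  obtain ⟨hint0, hmom⟩ := hloc T hTT1 U V hU hUV hVT E hE hth
  set ℓ : ℝ := Real.log T with hℓ
  have hℓm : max ℓ0 (8 * (3 * A + 2)) ≤ ℓ := by
    rw [hℓ, Real.le_log_iff_exp_le hT0]
    exact hTe
  have hℓℓ : ℓ0 ≤ ℓ := (le_max_left _ _).trans hℓm
  have hℓA : 8 * (3 * A + 2) ≤ ℓ := (le_max_right _ _).trans hℓm
  have hℓ2 : 2 ≤ ℓ := hℓ0.trans hℓℓ
  have hℓp : 0 < ℓ := by linarith
  have hAℓ : 0 ≤ A / ℓ := by positivity
  have hrad : (3 * A + 2) / ℓ ≤ 1 / 8 := by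
    rw [div_le_iff₀ hℓp]
    linarith
  set Mo : ℝ := momentOn E k (U - T ^ ε) (V + T ^ ε) with hMo
  have hMo0 : 0 ≤ Mo := integral_nonneg fun u => by positivity
  have hJJ : ∀ t, 0 ≤ JJ riemannZeta k ℓ t (M + 1) := fun t => by
    unfold JJ
    exact integral_nonneg fun u => by positivity
  set P : ℝ → ℝ := fun t => ((j.factorial : ℝ) * ℓ ^ j) ^ k * (C' * (ℓ * JJ riemannZeta k ℓ t (M + 1))) with hP
  have hP0 : ∀ t, 0 ≤ P t := fun t => by
    have := hJJ t
    rw [hP]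
    positivity
  -- the integral of P
  have hPint : ∫⁻ t in Icc U (V + 1), ENNReal.ofReal (P t) ≤ ENNReal.ofReal (D * ℓ ^ (j * k) * (Mo + 1)) := by
    set c : ℝ := ((j.factorial : ℝ) * ℓ ^ j) ^ k * C' with hc
    have hc0 : 0 ≤ c := by positivity
    have e1 : ∀ t, ENNReal.ofReal (P t) = ENNReal.ofReal c * ENNReal.ofReal (ℓ * JJ riemannZeta k ℓ t (M + 1)) := by
      intro t
      rw [← ENNReal.ofReal_mul hc0, hP, hc]
      ring_nf
    calc ∫⁻ t in Icc U (V + 1), ENNReal.ofReal (P t)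
        = ENNReal.ofReal c * ∫⁻ t in Icc U (V + 1), ENNReal.ofReal (ℓ * JJ riemannZeta k ℓ t (M + 1)) := by
          rw [lintegral_congr e1, lintegral_const_mul' _ _ ENNReal.ofReal_ne_top]
      _ ≤ ENNReal.ofReal c * ENNReal.ofReal (Real.pi * 4 ^ M * (C2 * (Mo + 1))) := by
          gcongr
          refine (mean_loc hf hM1 hℓ2 hUV hint0).trans (ENNReal.ofReal_le_ofReal ?_)
          exact mul_le_mul_of_nonneg_left hmom (by positivity)
      _ = ENNReal.ofReal (D * ℓ ^ (j * k) * (Mo + 1)) := by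
          rw [← ENNReal.ofReal_mul hc0, hc, hD, mul_pow, ← pow_mul]
          ring_nf
  -- the pieces
  have hR : ENNReal.ofReal (D * K * ℓ ^ (j * k) * (Mo + 1)) =
      ENNReal.ofReal K * ENNReal.ofReal (D * ℓ ^ (j * k) * (Mo + 1)) := by
    rw [← ENNReal.ofReal_mul hK]
    ring_nf
  rw [hR]
  refine le_trans (pieces (ℓ := ℓ) (P := P) (by linarith) hK (fun s hs => hs.2) fun t ht => ?_) (mul_le_mul_right hPint _)
  set r2 : ℝ := (2 * A + 1) / ℓ with hr2
  set n : ℕ := zeroCount ⟨1 / 2, t⟩ r2 with hn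
  have hr2' : r2 ≤ (3 * A + 2) / ℓ := div_le_div_of_nonneg_right (by linarith) hℓp.le
  have hfin := ball_fin (t := t) (r := r2) (s := ⟨1 / 2, t⟩) (by rw [sub_self, norm_zero]; linarith)
  have hnear : ∀ s ∈ rect (A / ℓ) U V, |s.im - t| ≤ 1 / ℓ → ‖s - ⟨1 / 2, t⟩‖ ≤ A / ℓ + 1 / ℓ := by
    intro s hs hst
    refine (Complex.norm_le_abs_re_add_abs_im _).trans ?_
    have e1 : (s - ⟨1 / 2, t⟩).re = s.re - 1 / 2 := by simp
    have e2 : (s - ⟨1 / 2, t⟩).im = s.im - t := by simp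
    rw [e1, e2]
    exact add_le_add hs.1 hst
  have hsum : A / ℓ + (A / ℓ + 1 / ℓ) = r2 := by
    rw [hr2]
    field_simp
    ring
  have hF : ∀ s ∈ rect (A / ℓ) U V, |s.im - t| ≤ 1 / ℓ →
      Real.exp (B * zeroCount s (A / ℓ)) * maxDeriv j s (A / ℓ) ^ k ≤ Real.exp (-(B * n)) * P t := by
    intro s hs hst
    have h1 := hnear s hs hst
    have h2 : ∀ w : ℂ, ‖w - s‖ ≤ A / ℓ → ‖w - ⟨1 / 2, t⟩‖ ≤ r2 := by
      intro w hw
      calc ‖w - ⟨1 / 2, t⟩‖ = ‖(w - s) + (s - ⟨1 / 2, t⟩)‖ := by ring_nf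
        _ ≤ ‖w - s‖ + ‖s - ⟨1 / 2, t⟩‖ := norm_add_le _ _
        _ ≤ r2 := by linarith
    have h3 : zeroCount s (A / ℓ) ≤ n := by
      refine zeroCount_mono h2 (t := t) ?_ ?_
      · linarith
      · rw [sub_self, norm_zero]
        linarith
    have h4 : Real.exp (2 * B * n) * maxDeriv j s (A / ℓ) ^ k ≤ P t := by
      refine maxDeriv_bd hk hAℓ (Real.exp_pos _) fun w hw => ?_
      rw [hn, zeroCount_fin hfin]
      exact hpt ℓ t hℓℓ (exp_cond hT1 (by linarith [ht.1]) (by linarith [ht.2])) hfin.toFinset (fun z hz => by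
        rw [Set.Finite.mem_toFinset] at hz
        exact hz.1) j w (h2 w hw)
    have h5 : 0 ≤ maxDeriv j s (A / ℓ) ^ k := pow_nonneg (maxDeriv_nonneg _ _ _) _
    have h6 : (zeroCount s (A / ℓ) : ℝ) ≤ n := by exact_mod_cast h3
    calc Real.exp (B * zeroCount s (A / ℓ)) * maxDeriv j s (A / ℓ) ^ k
        ≤ Real.exp (B * n) * maxDeriv j s (A / ℓ) ^ k := by
          refine mul_le_mul_of_nonneg_right (Real.exp_le_exp.2 ?_) h5
          exact mul_le_mul_of_nonneg_left h6 hB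
      _ = Real.exp (-(B * n)) * (Real.exp (2 * B * n) * maxDeriv j s (A / ℓ) ^ k) := by
          rw [← mul_assoc, ← Real.exp_add]
          ring_nf
      _ ≤ _ := mul_le_mul_of_nonneg_left h4 (Real.exp_pos _).le
  have hmS : MeasurableSet {s ∈ rect (A / ℓ) U V | |s.im - t| ≤ 1 / ℓ} := by
    have e : {s ∈ rect (A / ℓ) U V | |s.im - t| ≤ 1 / ℓ} =
        {s : ℂ | |s.re - 1 / 2| ≤ A / ℓ} ∩ ({s : ℂ | U ≤ s.im} ∩ {s : ℂ | s.im ≤ V}) ∩ {s : ℂ | |s.im - t| ≤ 1 / ℓ} := by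
      ext s
      rfl
    rw [e]
    refine IsClosed.measurableSet ?_
    refine ((isClosed_le (by fun_prop) continuous_const).inter ((isClosed_le continuous_const Complex.continuous_im).inter
      (isClosed_le Complex.continuous_im continuous_const))).inter (isClosed_le (by fun_prop) continuous_const)
  calc ∫⁻ s in {s ∈ rect (A / ℓ) U V | |s.im - t| ≤ 1 / ℓ}, ENNReal.ofReal
          (Real.exp (B * zeroCount s (A / ℓ)) * maxDeriv j s (A / ℓ) ^ k) ∂ν
      ≤ ∫⁻ _s in {s ∈ rect (A / ℓ) U V | |s.im - t| ≤ 1 / ℓ}, ENNReal.ofReal (Real.exp (-(B * n)) * P t) ∂ν :=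
        setLIntegral_mono' hmS fun s hs => ENNReal.ofReal_le_ofReal (hF s hs.1 hs.2)
    _ = ENNReal.ofReal (Real.exp (-(B * n)) * P t) * ν {s ∈ rect (A / ℓ) U V | |s.im - t| ≤ 1 / ℓ} := by
        rw [setLIntegral_const]
    _ ≤ ENNReal.ofReal (Real.exp (-(B * n)) * P t) * ENNReal.ofReal (K * Real.exp (B * n) / ℓ) := by
        gcongr
        exact hν t
    _ = ENNReal.ofReal (K * P t / ℓ) := by
        rw [← ENNReal.ofReal_mul (mul_nonneg (Real.exp_pos _).le (hP0 t))]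
        congr 1
        have : Real.exp (-(B * n)) * Real.exp (B * n) = 1 := by
          rw [← Real.exp_add, neg_add_cancel, Real.exp_zero]
        calc Real.exp (-(B * n)) * P t * (K * Real.exp (B * n) / ℓ)
            = (Real.exp (-(B * n)) * Real.exp (B * n)) * (K * P t / ℓ) := by ring
          _ = _ := by rw [this, one_mul]

end Pool.Agent.Results.MP_56b8f5_nt.LargeValuesAndZeros
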