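import Pool.Agent.K4H49.SV.Fin

set_option autoImplicit false

/-!
MP_56b8f5_nt. The eighth moment of zeta and the variance of `d_4` in the intervals `(x, x + x/T]`,
`T^(1 - δ) ≤ x ≤ T^(2 + δ)`, with the constants of Keating, Rodgers, Roditty-Gershon and Rudnick.
-/

namespace Pool.Agent.Results.MP_56b8f5_nt.ShortIntervalVariance

open Complex MeasureTheory Filter Topology
open scoped ContDiff

/-- `∫_0^T |ζ(1/2 + it)|^8 dt` -/
noncomputable def eighth (T : ℝ) : ℝ := ∫ t in (0:ℝ)..T, ‖riemannZeta (1 / 2 + I * t)‖ ^ 8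

/-- `M_4(T)` of the problem -/
noncomputable def M4 (T : ℝ) : ℝ := 1 / T * eighth T

/-- `a_4` of the problem -/
noncomputable def a4 : ℝ :=
  ∏' p : Nat.Primes, ((1 - 1 / (p : ℝ)) ^ 16 * ∑' m : ℕ, ((m + 3).choose m : ℝ) ^ 2 * (1 / (p : ℝ)) ^ m)

/-- `d_4(n)`, the number of `(a, b, c, d)` with `abcd = n` -/
def d4 (n : ℕ) : ℕ := (Nat.finMulAntidiag 4 n).card

/-- `p_4(y)`, the residue of `ζ(s)^4 y^(s - 1)` at `s = 1` (a cubic polynomial in `log y`): `1/(2πi)` times the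
integral over the circle `|s - 1| = 1/4` -/
noncomputable def p4 (y : ℝ) : ℂ := (2 * Real.pi * I)⁻¹ * ∮ s in C(1, 1 / 4), riemannZeta s ^ 4 * (y : ℂ) ^ (s - 1)

/-- The error term for the interval `(x, x + h]`:
`E_4(x, h) = Σ_{x < n ≤ x + h} d_4(n) - ∫_x^{x+h} p_4(y) dy = Δ_4(x + h) - Δ_4(x)` -/
noncomputable def E4 (x h : ℝ) : ℂ := ∑ n ∈ Finset.Ioc ⌊x⌋₊ ⌊x + h⌋₊, (d4 n : ℂ) - ∫ y in x..(x + h), p4 y

/-- The variance in the intervals `(x, x + x/T]`: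
`V_φ(T) = T ∫_0^∞ φ(log x / log T)² |E_4(x, x/T)|² dx / x²` -/
noncomputable def V (φ : ℝ → ℝ) (T : ℝ) : ℝ :=
  T * ∫ x in Set.Ioi (0:ℝ), φ (Real.log x / Real.log T) ^ 2 * ‖E4 x (x / T)‖ ^ 2 / x ^ 2

/-- Admissible cut-offs: smooth, of compact support, `0` on `[b, ∞)` for some `b < 3`, and
`φ(x)² + φ(4 - x)² = 1` for `1 ≤ x ≤ 3` -/
def Admissible (φ : ℝ → ℝ) : Prop :=
  ContDiff ℝ ∞ φ ∧ HasCompactSupport φ ∧ (∃ b : ℝ, b < 3 ∧ ∀ x, b ≤ x → φ x = 0) ∧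
    ∀ x ∈ Set.Icc (1:ℝ) 3, φ x ^ 2 + φ (4 - x) ^ 2 = 1

/-- The constant `(a_4 / 15!) ∫_0^1 (φ(x)² + φ(4 - x)² - 1) x^15 dx` -/
noncomputable def J (φ : ℝ → ℝ) : ℝ :=
  a4 / (Nat.factorial 15 : ℝ) * ∫ x in (0:ℝ)..1, (φ x ^ 2 + φ (4 - x) ^ 2 - 1) * x ^ 15

/-- `15! γ_4` on `[0, 2]` -/
noncomputable def q4 (u : ℝ) : ℝ :=
  if u ≤ 1 then u ^ 15 else u ^ 15 - 100100 * (u - 1) ^ 9 + 120120 * (u - 1) ^ 10 - 60060 * (u - 1) ^ 11 +
    10920 * (u - 1) ^ 12 - 1260 * (u - 1) ^ 13 - 4 * (u - 1) ^ 15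

/-- The piecewise polynomial `γ_4` on `[0, 4]` of Keating, Rodgers, Roditty-Gershon and Rudnick: the density at `u`
of `w_1 + ... + w_4` for the measure `Π_{i<j} (w_i - w_j)² dw / (4! (1! 2! 3!)²)` on `[0, 1]^4`. It satisfies
`γ_4(4 - u) = γ_4(u)`. -/
noncomputable def γ4 (u : ℝ) : ℝ := q4 (min u (4 - u)) / (Nat.factorial 15 : ℝ)

lemma lc_nat (k : ℕ) (hk : 1 ≤ k) (m : ℕ) : H306R2.lc (k : ℝ) m = ((m + k - 1).choose m : ℝ) := by
  induction m with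
  | zero => simp [H306R2.lc]
  | succ m ih =>
    have h0 : H306R2.lc (k:ℝ) (m + 1) = H306R2.lc k m * ((k + m) / ((m : ℝ) + 1)) := by
      unfold H306R2.lc
      rw [Finset.prod_range_succ]
    rw [h0, ih]
    have h1 : m + 1 + k - 1 = (m + k - 1) + 1 := by omega
    have h2 : ((m + k - 1) + 1) * (m + k - 1).choose m = ((m + k - 1) + 1).choose (m + 1) * (m + 1) :=
      Nat.add_one_mul_choose_eq (m + k - 1) m
    have h3 : (((m + k - 1 + 1 : ℕ)) : ℝ) = m + k := by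
      rw [show m + k - 1 + 1 = m + k by omega]; push_cast; ring
    have h4 : ((m : ℝ) + k) * ((m + k - 1).choose m : ℝ) =
        (((m + k - 1) + 1).choose (m + 1) : ℝ) * ((m : ℝ) + 1) := by
      rw [← h3]
      exact_mod_cast h2
    rw [h1]
    have h5 : (m : ℝ) + 1 ≠ 0 := by positivity
    rw [← mul_div_assoc, div_eq_iff h5, ← h4]
    ring

lemma a4_eq : a4 = H306R2.aF ((4:ℕ):ℝ) := by
  unfold a4 H306R2.aF
  refine tprod_congr fun p => ?_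
  congr 1
  · have h := Real.rpow_natCast (1 - 1 / (p : ℝ)) 16
    rw [← h]
    congr 1
    norm_num
  · refine tsum_congr fun m => ?_
    rw [lc_nat 4 (by norm_num)]
    rfl

lemma a4_pos : 0 < a4 := by
  rw [a4_eq]
  exact H306R2.aF_pos (by norm_num)

lemma z_eq (t : ℝ) : ‖K4H66.OL.zr 4 0 t‖ ^ 2 = ‖riemannZeta (1 / 2 + I * t)‖ ^ 8 := by
  unfold K4H66.OL.zr
  rw [norm_pow, ← pow_mul]
  norm_num
  rw [mul_comm]

lemma M_eq (T : ℝ) : TH535.SM.M (K4H66.OL.zr 4 0) T = eighth T := by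
  unfold TH535.SM.M eighth
  simp_rw [z_eq]

lemma NN_eq (T : ℝ) : R446.KR.NN (4 ^ 2) T = T * Real.log T ^ 16 := by
  unfold R446.KR.NN
  norm_num

lemma J_eq (φ : ℝ → ℝ) : K4H66.HL.Jc (fun x => (φ x : ℂ)) 4 = J φ := by
  unfold K4H66.HL.Jc J K4H66.HL.we K4H66.HL.g0
  rw [a4_eq, div_mul_eq_mul_div, mul_div_assoc, ← intervalIntegral.integral_div]
  congr 1
  refine intervalIntegral.integral_congr fun x _ => ?_
  simp only [Complex.norm_real, Real.norm_eq_abs, sq_abs]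
  norm_num
  ring

lemma E4_eq (x h : ℝ) : E4 x h = K4H49.SV.ET 4 x h := rfl

lemma V_eq (φ : ℝ → ℝ) (T : ℝ) : V φ T = K4H49.SV.Vo (fun x => (φ x : ℂ)) 4 T := by
  unfold V K4H49.SV.Vo
  congr 1
  refine integral_congr_ae (Eventually.of_forall fun x => ?_)
  simp only [Complex.norm_real, Real.norm_eq_abs, sq_abs, E4_eq]

lemma q4_cont : Continuous q4 := by
  unfold q4
  refine Continuous.if_le (by fun_prop) (by fun_prop) continuous_id continuous_const fun u hu => ?_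
  rw [hu]
  norm_num

lemma γ4_cont : Continuous γ4 := by
  unfold γ4
  exact (q4_cont.comp (by fun_prop)).div_const _

lemma γ4_symm (u : ℝ) : γ4 (4 - u) = γ4 u := by
  unfold γ4
  rw [sub_sub_cancel, min_comm]

lemma γ4_01 {u : ℝ} (h : u ≤ 1) : γ4 u = u ^ 15 / (Nat.factorial 15 : ℝ) := by
  unfold γ4
  rw [min_eq_left (by linarith)]
  unfold q4
  rw [if_pos h]

lemma γ4_12 {u : ℝ} (h : 1 ≤ u) (h2 : u ≤ 2) : γ4 u = (u ^ 15 - 100100 * (u - 1) ^ 9 + 120120 * (u - 1) ^ 10 -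
    60060 * (u - 1) ^ 11 + 10920 * (u - 1) ^ 12 - 1260 * (u - 1) ^ 13 - 4 * (u - 1) ^ 15) /
      (Nat.factorial 15 : ℝ) := by
  unfold γ4
  rw [min_eq_left (by linarith)]
  unfold q4
  rcases eq_or_lt_of_le h with h3 | h3
  · rw [← h3]
    norm_num
  · rw [if_neg (by linarith)]

lemma int_12 : ∫ u in (1:ℝ)..2, (u ^ 15 - 100100 * (u - 1) ^ 9 + 120120 * (u - 1) ^ 10 -
    60060 * (u - 1) ^ 11 + 10920 * (u - 1) ^ 12 - 1260 * (u - 1) ^ 13 - 4 * (u - 1) ^ 15) = 12012 / 16 - 1 / 16 := by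
  have hd : ∀ u : ℝ, HasDerivAt (fun u : ℝ => u ^ 16 / 16 - 10010 * (u - 1) ^ 10 + 10920 * (u - 1) ^ 11 -
      5005 * (u - 1) ^ 12 + 840 * (u - 1) ^ 13 - 90 * (u - 1) ^ 14 - 1 / 4 * (u - 1) ^ 16)
      (u ^ 15 - 100100 * (u - 1) ^ 9 + 120120 * (u - 1) ^ 10 -
        60060 * (u - 1) ^ 11 + 10920 * (u - 1) ^ 12 - 1260 * (u - 1) ^ 13 - 4 * (u - 1) ^ 15) u := by
    intro u
    have h0 : ∀ n : ℕ, HasDerivAt (fun u : ℝ => (u - 1) ^ n) (n * (u - 1) ^ (n - 1)) u := by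
      intro n
      have := ((hasDerivAt_id' u).sub_const 1).fun_pow n
      simpa using this
    have h1 := ((hasDerivAt_pow 16 u).div_const 16).fun_sub ((h0 10).const_mul 10010)
    have h2 := ((((h1.fun_add ((h0 11).const_mul 10920)).fun_sub ((h0 12).const_mul 5005)).fun_add
      ((h0 13).const_mul 840)).fun_sub ((h0 14).const_mul 90)).fun_sub ((h0 16).const_mul (1 / 4))
    refine h2.congr_deriv ?_
    push_cast
    ring
  rw [intervalIntegral.integral_eq_sub_of_hasDerivAt (fun u _ => hd u)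
    ((by fun_prop : Continuous fun u : ℝ => (u ^ 15 - 100100 * (u - 1) ^ 9 + 120120 * (u - 1) ^ 10 -
        60060 * (u - 1) ^ 11 + 10920 * (u - 1) ^ 12 - 1260 * (u - 1) ^ 13 - 4 * (u - 1) ^ 15)).intervalIntegrable _ _)]
  norm_num

lemma γ_int {φ : ℝ → ℝ} (hc : Continuous φ) (h1 : ∀ x ∈ Set.Icc (1:ℝ) 3, φ x ^ 2 + φ (4 - x) ^ 2 = 1) :
    ∫ u in (0:ℝ)..4, φ u ^ 2 * γ4 u = 12012 / (Nat.factorial 16 : ℝ) +
      1 / (Nat.factorial 15 : ℝ) * ∫ x in (0:ℝ)..1, (φ x ^ 2 + φ (4 - x) ^ 2 - 1) * x ^ 15 := by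
  have hg := γ4_cont
  have hF : (0:ℝ) < (Nat.factorial 15 : ℝ) := by exact_mod_cast Nat.factorial_pos 15
  have hF2 : (Nat.factorial 16 : ℝ) = 16 * (Nat.factorial 15 : ℝ) := by
    rw [Nat.factorial_succ 15]; push_cast; ring
  have ii : ∀ f : ℝ → ℝ, Continuous f → ∀ a b : ℝ, IntervalIntegrable f volume a b :=
    fun f hf a b => hf.intervalIntegrable _ _
  have c1 : Continuous fun u => φ u ^ 2 * γ4 u := by fun_prop
  have c2 : Continuous fun u => φ (4 - u) ^ 2 * γ4 u := by fun_prop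
  have s1 : ∫ u in (0:ℝ)..4, φ u ^ 2 * γ4 u = (∫ u in (0:ℝ)..2, φ u ^ 2 * γ4 u) + ∫ u in (2:ℝ)..4, φ u ^ 2 * γ4 u :=
    (intervalIntegral.integral_add_adjacent_intervals (ii _ c1 _ _) (ii _ c1 _ _)).symm
  have s2 : ∫ u in (2:ℝ)..4, φ u ^ 2 * γ4 u = ∫ u in (0:ℝ)..2, φ (4 - u) ^ 2 * γ4 u := by
    have := intervalIntegral.integral_comp_sub_left (fun u => φ u ^ 2 * γ4 u) (a := 0) (b := 2) 4
    norm_num at this
    rw [← this]
    refine intervalIntegral.integral_congr fun u _ => ?_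
    show φ (4 - u) ^ 2 * γ4 (4 - u) = φ (4 - u) ^ 2 * γ4 u
    rw [γ4_symm]
  have s3 : (∫ u in (0:ℝ)..2, φ u ^ 2 * γ4 u) + (∫ u in (0:ℝ)..2, φ (4 - u) ^ 2 * γ4 u) =
      ∫ u in (0:ℝ)..2, (φ u ^ 2 + φ (4 - u) ^ 2) * γ4 u := by
    rw [← intervalIntegral.integral_add (ii _ c1 _ _) (ii _ c2 _ _)]
    refine intervalIntegral.integral_congr fun u _ => ?_
    show φ u ^ 2 * γ4 u + φ (4 - u) ^ 2 * γ4 u = (φ u ^ 2 + φ (4 - u) ^ 2) * γ4 u
    ring
  have c3 : Continuous fun u => (φ u ^ 2 + φ (4 - u) ^ 2) * γ4 u := by fun_prop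
  have s4 : ∫ u in (0:ℝ)..2, (φ u ^ 2 + φ (4 - u) ^ 2) * γ4 u = (∫ u in (0:ℝ)..1, (φ u ^ 2 + φ (4 - u) ^ 2) * γ4 u) +
      ∫ u in (1:ℝ)..2, (φ u ^ 2 + φ (4 - u) ^ 2) * γ4 u :=
    (intervalIntegral.integral_add_adjacent_intervals (ii _ c3 _ _) (ii _ c3 _ _)).symm
  have s5 : ∫ u in (1:ℝ)..2, (φ u ^ 2 + φ (4 - u) ^ 2) * γ4 u = (12012 / 16 - 1 / 16) / (Nat.factorial 15 : ℝ) := by
    rw [← int_12, ← intervalIntegral.integral_div]
    refine intervalIntegral.integral_congr fun u hu => ?_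
    rw [Set.uIcc_of_le (by norm_num)] at hu
    show (φ u ^ 2 + φ (4 - u) ^ 2) * γ4 u = _
    rw [h1 u ⟨hu.1, by linarith [hu.2]⟩, γ4_12 hu.1 hu.2, one_mul]
  have s6 : ∫ u in (0:ℝ)..1, (φ u ^ 2 + φ (4 - u) ^ 2) * γ4 u =
      1 / (Nat.factorial 15 : ℝ) * (∫ x in (0:ℝ)..1, (φ x ^ 2 + φ (4 - x) ^ 2 - 1) * x ^ 15) +
        1 / (Nat.factorial 15 : ℝ) * (1 / 16) := by
    have e : (1 / 16 : ℝ) = ∫ x in (0:ℝ)..1, x ^ 15 := by rw [integral_pow]; norm_num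
    rw [e, ← mul_add, ← intervalIntegral.integral_add (ii _ (by fun_prop) _ _) (ii _ (by fun_prop) _ _),
      ← intervalIntegral.integral_const_mul]
    refine intervalIntegral.integral_congr fun u hu => ?_
    rw [Set.uIcc_of_le (by norm_num)] at hu
    show (φ u ^ 2 + φ (4 - u) ^ 2) * γ4 u = 1 / (Nat.factorial 15 : ℝ) * ((φ u ^ 2 + φ (4 - u) ^ 2 - 1) * u ^ 15 + u ^ 15)
    rw [γ4_01 hu.2]
    ring
  rw [s1, s2, s3, s4, s5, s6, hF2]
  field_simp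
  ring

/-- **Main theorem.**
For every admissible `φ`:
(1) for every real `c`, `M_4(T)/log^16 T → c` if and only if `V_φ(T)/log^16 T → c/2 + J_φ`;
(2) the conjecture Q1 holds if and only if `V_φ(T)/log^16 T → a_4 ∫_0^4 φ² γ_4`, the value predicted by the
conjecture of Keating, Rodgers, Roditty-Gershon and Rudnick;
(3) `M_4(T) = O(log^16 T)` if and only if `V_φ(T) = O(log^16 T)`;
(4) for `0 < θ ≤ 1/2`, `M_4(T) = O(T^θ)` if and only if `V_φ(T) = O(T^θ)`.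
(5) For every `0 < δ < 1` there is an admissible `φ` with values in `[0, 1]` and support in `[1 - δ, 2 + δ]`: only
the intervals `(x, x + x/T]` with `T^(1 - δ) ≤ x ≤ T^(2 + δ)` occur in `V_φ(T)`. -/
theorem result :
    (∀ φ : ℝ → ℝ, Admissible φ →
      (∀ c : ℝ, Tendsto (fun T => M4 T / Real.log T ^ 16) atTop (𝓝 c) ↔
        Tendsto (fun T => V φ T / Real.log T ^ 16) atTop (𝓝 (c / 2 + J φ))) ∧
      (Tendsto (fun T => M4 T / (24024 * a4 / (Nat.factorial 16 : ℝ) * Real.log T ^ 16)) atTop (𝓝 1) ↔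
        Tendsto (fun T => V φ T / Real.log T ^ 16) atTop (𝓝 (a4 * ∫ u in (0:ℝ)..4, φ u ^ 2 * γ4 u))) ∧
      ((∃ B : ℝ, ∀ᶠ T in atTop, M4 T ≤ B * Real.log T ^ 16) ↔ ∃ B : ℝ, ∀ᶠ T in atTop, V φ T ≤ B * Real.log T ^ 16) ∧
      (∀ θ : ℝ, 0 < θ → θ ≤ 1 / 2 →
        ((∃ B : ℝ, ∀ᶠ T in atTop, M4 T ≤ B * T ^ θ) ↔ ∃ B : ℝ, ∀ᶠ T in atTop, V φ T ≤ B * T ^ θ))) ∧
    (∀ δ : ℝ, 0 < δ → δ < 1 → ∃ φ : ℝ → ℝ, Admissible φ ∧ (∀ x, x ∉ Set.Icc (1 - δ) (2 + δ) → φ x = 0) ∧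
      ∀ x, φ x ∈ Set.Icc (0:ℝ) 1) := by
  have e3 : ((4:ℕ):ℝ) = 4 := by norm_num
  constructor
  · rintro φ ⟨h1, h2, ⟨b', hb', hb''⟩, h3⟩
    set ψ : ℝ → ℂ := fun x => (φ x : ℂ) with hψ
    have hT : K4H66.HL.TS ψ := by
      refine ⟨Complex.ofRealCLM.contDiff.comp h1, ?_⟩
      exact h2.comp_left (g := fun x : ℝ => (x : ℂ)) Complex.ofReal_zero
    have hr : ∀ x, (starRingEnd ℂ) (ψ x) = ψ x := fun x => Complex.conj_ofReal _
    have hk : 2 ≤ 4 := by norm_num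
    have hφ : ∀ x ∈ Set.Icc (1:ℝ) (((4:ℕ):ℝ) - 1), ‖ψ x‖ ^ 2 + ‖ψ (((4:ℕ):ℝ) - x)‖ ^ 2 = 1 := by
      intro x hx
      rw [e3] at hx ⊢
      simp only [hψ, Complex.norm_real, Real.norm_eq_abs, sq_abs]
      exact h3 x ⟨hx.1, by linarith [hx.2]⟩
    set b : ℝ := max b' 1 with hbd
    have hb0 : 0 < b := lt_of_lt_of_le one_pos (le_max_right _ _)
    have hb3 : b < 3 := max_lt hb' (by norm_num)
    have hb : ∀ ξ, b ≤ ξ → ψ ξ = 0 := by
      intro ξ hξ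
      simp only [hψ]
      rw [hb'' ξ ((le_max_left _ _).trans hξ), Complex.ofReal_zero]
    -- normalisations
    have n1 : ∀ T : ℝ, 1 < T → TH535.SM.M (K4H66.OL.zr 4 0) T / R446.KR.NN (4 ^ 2) T = M4 T / Real.log T ^ 16 := by
      intro T hT1
      have := Real.log_pos hT1
      rw [NN_eq, M_eq]
      unfold M4
      field_simp
    have n3 : ∀ T : ℝ, 1 < T → ∀ B : ℝ, (TH535.SM.M (K4H66.OL.zr 4 0) T ≤ B * R446.KR.NN (4 ^ 2) T ↔
        M4 T ≤ B * Real.log T ^ 16) := by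
      intro T hT1 B
      have hT0 : 0 < T := by linarith
      rw [NN_eq, M_eq]
      unfold M4
      rw [one_div, inv_mul_le_iff₀ hT0]
      constructor <;> intro h <;> linarith
    have n5 : ∀ T : ℝ, 1 < T → ∀ B θ : ℝ, (TH535.SM.M (K4H66.OL.zr 4 0) T ≤ B * T ^ (1 + θ) ↔
        M4 T ≤ B * T ^ θ) := by
      intro T hT1 B θ
      have hT0 : 0 < T := by linarith
      rw [M_eq, Real.rpow_add hT0, Real.rpow_one]
      unfold M4
      rw [one_div, inv_mul_le_iff₀ hT0]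
      constructor <;> intro h <;> linarith
    have main : ∀ c : ℝ, Tendsto (fun T => M4 T / Real.log T ^ 16) atTop (𝓝 c) ↔
        Tendsto (fun T => V φ T / Real.log T ^ 16) atTop (𝓝 (c / 2 + J φ)) := by
      intro c
      have h := K4H49.SV.main_iff hk hT hr hφ hb0 hb3 hb c
      rw [J_eq] at h
      rw [tendsto_congr' (f₁ := fun T => M4 T / Real.log T ^ 16)
        (f₂ := fun T => TH535.SM.M (K4H66.OL.zr 4 0) T / R446.KR.NN (4 ^ 2) T)
        (by filter_upwards [eventually_gt_atTop 1] with T hT1; exact (n1 T hT1).symm), h]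
      refine tendsto_congr fun T => ?_
      rw [V_eq, show (4 ^ 2 : ℕ) = 16 by norm_num]
    refine ⟨main, ?_, ?_, ?_⟩
    · have hf : (0:ℝ) < (Nat.factorial 16 : ℝ) := by exact_mod_cast Nat.factorial_pos 16
      have hc : 0 < 24024 * a4 / (Nat.factorial 16 : ℝ) := div_pos (mul_pos (by norm_num) a4_pos) hf
      have h := main (24024 * a4 / (Nat.factorial 16 : ℝ))
      have e : 24024 * a4 / (Nat.factorial 16 : ℝ) / 2 + J φ = a4 * ∫ u in (0:ℝ)..4, φ u ^ 2 * γ4 u := by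
        rw [γ_int h1.continuous h3]
        unfold J
        ring
      rw [e] at h
      rw [← h]
      obtain ⟨c, hcd⟩ : ∃ c, c = 24024 * a4 / (Nat.factorial 16 : ℝ) := ⟨_, rfl⟩
      rw [← hcd] at hc ⊢
      constructor
      · intro h1
        have h2 := h1.const_mul c
        rw [mul_one] at h2
        refine h2.congr fun T => ?_
        rw [mul_comm c (Real.log T ^ 16), ← div_div]
        field_simp
      · intro h1
        have h2 := h1.div_const c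
        rw [div_self hc.ne'] at h2
        refine h2.congr fun T => ?_
        rw [div_div, mul_comm c]
    · have h := K4H49.SV.main_ord hk hT hr hφ hb0 hb3 hb
      constructor
      · rintro ⟨B, hB⟩
        obtain ⟨B', hB'⟩ := h.1 ⟨B, by
          filter_upwards [hB, eventually_gt_atTop 1] with T a1 a2; exact (n3 T a2 _).2 a1⟩
        exact ⟨B', by filter_upwards [hB'] with T a1; rw [V_eq]; exact a1⟩
      · rintro ⟨B, hB⟩
        obtain ⟨B', hB'⟩ := h.2 ⟨B, by filter_upwards [hB] with T a1; rw [V_eq] at a1; exact a1⟩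
        exact ⟨B', by filter_upwards [hB', eventually_gt_atTop 1] with T a1 a2; exact (n3 T a2 _).1 a1⟩
    · intro θ hθ hθ1
      have h := K4H49.SV.main_pow hk hT hr hφ hb0 hb3 hb hθ hθ1
      constructor
      · rintro ⟨B, hB⟩
        obtain ⟨B', hB'⟩ := h.1 ⟨B, by
          filter_upwards [hB, eventually_gt_atTop 1] with T a1 a2; exact (n5 T a2 _ _).2 a1⟩
        exact ⟨B', by filter_upwards [hB'] with T a1; rw [V_eq]; exact a1⟩
      · rintro ⟨B, hB⟩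
        obtain ⟨B', hB'⟩ := h.2 ⟨B, by filter_upwards [hB] with T a1; rw [V_eq] at a1; exact a1⟩
        exact ⟨B', by filter_upwards [hB', eventually_gt_atTop 1] with T a1 a2; exact (n5 T a2 _ _).1 a1⟩
  · intro δ hδ hδ1
    obtain ⟨f, f1, f2, f3, f4⟩ := K4H66.HL.exists_cut (k := 4) (by norm_num) hδ
    rw [e3] at f2 f4
    have e42 : (4:ℝ) / 2 = 2 := by norm_num
    rw [e42] at f2
    refine ⟨f, ⟨f1, ?_, ⟨(5 + δ) / 2, by linarith, ?_⟩, ?_⟩, f2, f3⟩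
    · exact HasCompactSupport.intro (isCompact_Icc (a := 1 - δ) (b := 2 + δ)) fun x hx => f2 x hx
    · intro x hx
      exact f2 x fun h => by linarith [h.2]
    · intro x hx
      exact f4 x ⟨hx.1, by linarith [hx.2]⟩

end Pool.Agent.Results.MP_56b8f5_nt.ShortIntervalVariance
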