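import Pool.Agent.K4H95.ZP.Shp

/-!
MP_56b8f5_nt. The fourth power of zeta times an arbitrary absolutely convergent Euler product, and times the powers of
the truncated Euler product `P_Y(t) = ∏_(p ≤ Y) |1 - p^(-1/2 - it)|⁻¹`. For all real `k` the mean of
`|ζ(1/2 + it)|^4 P_Y(t)^(2k)` over `[0, X]` is asymptotic to `L_k(Y) (log X)^4` as `X → ∞`, and `L_k(Y)` is asymptotic
to `(1/12) a(2 + k) (e^γ log Y)^(4k + k²)` as `Y → ∞` (`γ` is Euler's constant). For `k = 2` this is the eighth moment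
with four of the eight factors replaced by truncated Euler products, with the arithmetic factor `a_4` and `4 + 12`
logarithms.
-/

set_option autoImplicit false

open Filter Topology

/-- the Euler product `∏_p |1 - p^(-1/2-it)|^(-w(p))` -/
noncomputable def Pool.Agent.Results.MP_56b8f5_nt.TruncatedProducts.EP (w : Nat.Primes → ℝ) (t : ℝ) : ℝ :=
  ∏' p : Nat.Primes, ‖1 - ((p : ℕ) : ℂ) ^ (-(1 / 2 + Complex.I * t))‖ ^ (-(w p))

/-- the truncated product `∏_(p ≤ Y) |1 - p^(-1/2-it)|⁻¹` -/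
noncomputable def Pool.Agent.Results.MP_56b8f5_nt.TruncatedProducts.PY (Y : ℕ) (t : ℝ) : ℝ :=
  ∏ p ∈ (Finset.Icc 1 Y).filter Nat.Prime, ‖1 - (p : ℂ) ^ (-(1 / 2 + Complex.I * t))‖⁻¹

/-- the mean of `|1 - p^(-1/2) e(θ)|^(-2s)` over `θ ∈ [0, 1]` -/
noncomputable def Pool.Agent.Results.MP_56b8f5_nt.TruncatedProducts.loc (p : Nat.Primes) (s : ℝ) : ℝ :=
  ∫ θ in (0:ℝ)..1, ‖1 - Complex.exp (2 * Real.pi * Complex.I * θ) / ((√((p : ℕ) : ℝ) : ℝ) : ℂ)‖ ^ (-(2 * s))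

/-- the arithmetic factor `a(s) = ∏_p (1 - 1/p)^(s²) loc(p, s)` -/
noncomputable def Pool.Agent.Results.MP_56b8f5_nt.TruncatedProducts.ar (s : ℝ) : ℝ :=
  ∏' p : Nat.Primes, (1 - 1 / ((p : ℕ) : ℝ)) ^ (s ^ 2) * Pool.Agent.Results.MP_56b8f5_nt.TruncatedProducts.loc p s

/-- the constant `(1/12) ∏_p (1 - 1/p)^4 loc(p, 2 + w(p))` -/
noncomputable def Pool.Agent.Results.MP_56b8f5_nt.TruncatedProducts.co (w : Nat.Primes → ℝ) : ℝ :=
  1 / 12 * ∏' p : Nat.Primes, (1 - 1 / ((p : ℕ) : ℝ)) ^ 4 * Pool.Agent.Results.MP_56b8f5_nt.TruncatedProducts.loc p (2 + w p)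

/-- the sharp cut-off: `k` for the primes `p ≤ Y` -/
noncomputable def Pool.Agent.Results.MP_56b8f5_nt.TruncatedProducts.cut (k : ℝ) (Y : ℕ) (p : Nat.Primes) : ℝ := if (p : ℕ) ≤ Y then k else 0

open Pool.Agent.Results.MP_56b8f5_nt.TruncatedProducts in
theorem Pool.Agent.Results.MP_56b8f5_nt.TruncatedProducts.result :
    (∀ w : Nat.Primes → ℝ, (Summable fun p : Nat.Primes => |w p| / √((p : ℕ) : ℝ)) →
      (∀ t : ℝ, 0 < EP w t ∧ Multipliable fun p : Nat.Primes =>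
        ‖1 - ((p : ℕ) : ℂ) ^ (-(1 / 2 + Complex.I * t))‖ ^ (-(w p))) ∧
      (Multipliable fun p : Nat.Primes => (1 - 1 / ((p : ℕ) : ℝ)) ^ 4 * loc p (2 + w p)) ∧ 0 < co w ∧
      Tendsto (fun X : ℝ => (1 / X * ∫ t in (0:ℝ)..X, ‖riemannZeta (1 / 2 + Complex.I * t)‖ ^ 4 * EP w t ^ 2) /
        Real.log X ^ 4) atTop (𝓝 (co w))) ∧
    (∀ k : ℝ,
      (∀ Y : ℕ, Tendsto (fun X : ℝ => (1 / X * ∫ t in (0:ℝ)..X,
        ‖riemannZeta (1 / 2 + Complex.I * t)‖ ^ 4 * PY Y t ^ (2 * k)) / Real.log X ^ 4) atTop (𝓝 (co (cut k Y)))) ∧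
      (Multipliable fun p : Nat.Primes => (1 - 1 / ((p : ℕ) : ℝ)) ^ ((2 + k) ^ 2) * loc p (2 + k)) ∧
      0 < ar (2 + k) ∧
      Tendsto (fun Y : ℕ => co (cut k Y) / (Real.exp Real.eulerMascheroniConstant * Real.log Y) ^ (4 * k + k ^ 2))
        atTop (𝓝 (1 / 12 * ar (2 + k)))) ∧
    ∀ k : ℕ, 1 ≤ k → ar k = ∏' p : Nat.Primes, (1 - 1 / ((p : ℕ) : ℝ)) ^ (k ^ 2) *
      ∑' m : ℕ, (((m + k - 1).choose m : ℕ) : ℝ) ^ 2 / ((p : ℕ) : ℝ) ^ m := by
  have hloc : ∀ (p : Nat.Primes) (s : ℝ), loc p s = Pool.Agent.K4H95.ZP.LM (Pool.Agent.Y852.SX.rp p) s := by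
    intro p s
    unfold loc Pool.Agent.K4H95.ZP.LM Pool.Agent.TH806.uu
    rw [intervalIntegral.integral_of_le zero_le_one]
    congr 1
    funext θ
    unfold Pool.Agent.K4H95.ZP.Nr Pool.Agent.TH806.ec
    rw [Pool.Agent.K4H95.ZP.rp_eq p.2]
    congr 3
    push_cast
    rw [div_eq_mul_inv, mul_comm, one_div]
    congr 2
    ring
  have hco : ∀ w : Nat.Primes → ℝ, co w = Pool.Agent.K4H95.ZP.cw w := by
    intro w
    unfold co Pool.Agent.K4H95.ZP.cw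
    simp only [hloc]
  have har : ∀ s : ℝ, ar s = Pool.Agent.K4H95.ZP.arr s := by
    intro s
    unfold ar Pool.Agent.K4H95.ZP.arr
    simp only [hloc]
  have hfac : ∀ (p : Nat.Primes) (t : ℝ), ‖1 - ((p : ℕ) : ℂ) ^ (-(1 / 2 + Complex.I * t))‖ =
      Pool.Agent.K4H95.ZP.Nr (Pool.Agent.Y852.SX.rp p) (Pool.Agent.K4H95.ZP.th p t) := by
    intro p t
    rw [mul_comm Complex.I]
    exact Pool.Agent.K4H95.ZP.fac_eq p t
  have hpos : ∀ (p : Nat.Primes) (t : ℝ), 0 < ‖1 - ((p : ℕ) : ℂ) ^ (-(1 / 2 + Complex.I * t))‖ := by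
    intro p t
    rw [hfac]
    exact Pool.Agent.K4H95.ZP.Nr_pos (Pool.Agent.Y852.SX.rp_pos p).le (Pool.Agent.Y852.SX.rp_lt p p.2) _
  have hlg : ∀ (p : Nat.Primes) (t : ℝ), Real.log ‖1 - ((p : ℕ) : ℂ) ^ (-(1 / 2 + Complex.I * t))‖ =
      Pool.Agent.K4H95.ZP.ell t p := by
    intro p t
    rw [hfac, Pool.Agent.K4H95.ZP.ell_eq]
  have hsum : ∀ w : Nat.Primes → ℝ, (Summable fun p : Nat.Primes => |w p| / √((p : ℕ) : ℝ)) →
      Summable fun p : Nat.Primes => |w p| * Pool.Agent.Y852.SX.rp p := by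
    intro w hw
    refine hw.congr fun p => ?_
    rw [Pool.Agent.K4H95.ZP.rp_eq p.2]
    ring
  have hlogs : ∀ w : Nat.Primes → ℝ, (Summable fun p : Nat.Primes => |w p| * Pool.Agent.Y852.SX.rp p) → ∀ t : ℝ,
      Summable fun p : Nat.Primes => Real.log (‖1 - ((p : ℕ) : ℂ) ^ (-(1 / 2 + Complex.I * t))‖ ^ (-(w p))) := by
    intro w hw t
    refine Summable.of_norm_bounded (hw.mul_left 4) fun p => ?_
    rw [Real.log_rpow (hpos p t), hlg, norm_mul, norm_neg, Real.norm_eq_abs, Real.norm_eq_abs]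
    calc |w p| * |Pool.Agent.K4H95.ZP.ell t p| ≤ |w p| * (4 * Pool.Agent.Y852.SX.rp p) :=
          mul_le_mul_of_nonneg_left (Pool.Agent.K4H95.ZP.ell_bd p t) (abs_nonneg _)
      _ = _ := by ring
  have hEP : ∀ w : Nat.Primes → ℝ, (Summable fun p : Nat.Primes => |w p| * Pool.Agent.Y852.SX.rp p) → ∀ t : ℝ,
      EP w t = Real.exp (-∑' p : Nat.Primes, w p * Pool.Agent.K4H95.ZP.ell t p) := by
    intro w hw t
    unfold EP
    rw [← Real.rexp_tsum_eq_tprod (fun p => Real.rpow_pos_of_pos (hpos p t) _) (hlogs w hw t), ← tsum_neg]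
    congr 1
    refine tsum_congr fun p => ?_
    rw [Real.log_rpow (hpos p t), hlg]
    ring
  have hX : ∀ t : ℝ, Pool.Agent.Y969.SM.Xz t = ‖riemannZeta (1 / 2 + Complex.I * t)‖ := by
    intro t
    unfold Pool.Agent.Y969.SM.Xz Pool.Agent.H306R2.SM.cl
    rw [mul_comm Complex.I]
  have hW : ∀ w : Nat.Primes → ℝ, (Summable fun p : Nat.Primes => |w p| * Pool.Agent.Y852.SX.rp p) →
      Tendsto (fun X : ℝ => (1 / X * ∫ t in (0:ℝ)..X, ‖riemannZeta (1 / 2 + Complex.I * t)‖ ^ 4 * EP w t ^ 2) /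
        Real.log X ^ 4) atTop (𝓝 (co w)) := by
    intro w hw
    have h1 := Pool.Agent.K4H95.ZP.moment_c hw
    rw [hco]
    refine h1.congr fun X => ?_
    have e1 : ∀ t : ℝ, EP w t ^ 2 = Real.exp (-∑' p : Nat.Primes, w p * Pool.Agent.K4H95.ZP.ell t p) ^ (2:ℝ) := by
      intro t
      rw [hEP w hw, Real.rpow_two]
    simp only [e1, hX]
    rw [one_div_mul_eq_div, div_div]
  obtain ⟨κ₁, κ₂, -, -, hk⟩ := Pool.Agent.K4H95.ZP.cw_asymp 0
  refine ⟨fun w hw => ⟨fun t => ⟨?_, ?_⟩, ?_, ?_, hW w (hsum w hw)⟩, fun k => ⟨fun Y => ?_, ?_, ?_, ?_⟩, fun k hk => ?_⟩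
  · rw [hEP w (hsum w hw)]
    exact Real.exp_pos _
  · exact Real.multipliable_of_summable_log (fun p => Real.rpow_pos_of_pos (hpos p t) _) (hlogs w (hsum w hw) t)
  · simp only [hloc]
    exact (Pool.Agent.K4H95.ZP.cw_mul (hsum w hw)).1
  · rw [hco]
    exact (Pool.Agent.K4H95.ZP.cw_mul (hsum w hw)).2
  · refine (hW (cut k Y) (Pool.Agent.K4H95.ZP.wsh_sum k Y)).congr fun X => ?_
    have e1 : ∀ t : ℝ, EP (cut k Y) t ^ 2 = PY Y t ^ (2 * k) := by
      intro t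
      have e2 : EP (cut k Y) t = PY Y t ^ k := by
        unfold EP PY
        rw [tprod_eq_prod (s := Pool.Agent.K4H95.ZP.Qn (Y + 1))]
        · have e3 : (Finset.Icc 1 Y).filter Nat.Prime = Pool.Agent.K4H95.ZP.Pn (Y + 1) := by
            unfold Pool.Agent.K4H95.ZP.Pn
            ext p
            simp only [Finset.mem_filter, Finset.mem_Icc, Finset.mem_range]
            constructor
            · rintro ⟨⟨h1, h2⟩, h3⟩
              exact ⟨by omega, h3⟩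
            · rintro ⟨h1, h2⟩
              exact ⟨⟨h2.one_lt.le, by omega⟩, h2⟩
          rw [e3, ← Pool.Agent.K4H95.ZP.prod_Qn (Y + 1) fun p : ℕ => ‖1 - (p : ℂ) ^ (-(1 / 2 + Complex.I * t))‖⁻¹,
            ← Real.finsetProd_rpow _ _ (fun p _ => inv_nonneg.2 (norm_nonneg _))]
          refine Finset.prod_congr rfl fun p hp => ?_
          rw [Pool.Agent.K4H95.ZP.mem_Qn] at hp
          unfold cut
          rw [if_pos (by omega), Real.inv_rpow (norm_nonneg _), Real.rpow_neg (norm_nonneg _)]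
        · intro p hp
          rw [Pool.Agent.K4H95.ZP.mem_Qn] at hp
          unfold cut
          rw [if_neg (by omega), neg_zero, Real.rpow_zero]
      have h0 : 0 ≤ PY Y t := Finset.prod_nonneg fun p _ => inv_nonneg.2 (norm_nonneg _)
      rw [e2, ← Real.rpow_natCast, ← Real.rpow_mul h0]
      congr 1
      push_cast
      ring
    simp only [e1]
  · simp only [hloc]
    exact (hk k).1
  · rw [har]
    exact (hk k).2.1
  · rw [har]
    simp only [hco]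
    exact Pool.Agent.K4H95.ZP.cw_sharp k
  · obtain ⟨n, rfl⟩ : ∃ n, k = n + 1 := ⟨k - 1, by omega⟩
    rw [har]
    have h1 := Pool.Agent.K4H95.ZP.arr_nat n
    rw [Nat.cast_add, Nat.cast_one, h1]
    refine tprod_congr fun p => ?_
    congr 1
    refine tsum_congr fun m => ?_
    have e1 : m + (n + 1) - 1 = m + n := by omega
    rw [e1, Nat.choose_symm_add]
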